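import Mathlib

/-!
# MP_e31007_co: the AutoGraphiX conjecture on Randic index plus independence number is false

For every `n ≥ 11` the complete bipartite graph `K_{2,n-2}` violates
`R(G) + α(G) ≤ n - 1 + √(n-1)`.
-/

namespace Pool.Agent.Results.MP_e31007_co.CompleteBip

open Classical in
/-- The Randic index of a finite simple graph: the sum over all edges `uv` of
`1 / √(d_u d_v)`. -/
noncomputable def randic {V : Type} [Fintype V] (G : SimpleGraph V) : ℝ :=
  ∑ e ∈ G.edgeFinset,
    Sym2.lift ⟨fun u v => 1 / Real.sqrt ((G.degree u : ℝ) * (G.degree v : ℝ)),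
      fun u v => by simp only [mul_comm]⟩ e

open Classical in
lemma randic_K (m : ℕ) (hm : 1 ≤ m) :
    randic (completeBipartiteGraph (Fin 2) (Fin m)) = Real.sqrt (2 * m) := by
  set G := completeBipartiteGraph (Fin 2) (Fin m) with hG
  have dl : ∀ a : Fin 2, G.degree (Sum.inl a) = m := by
    intro a
    rw [← SimpleGraph.card_neighborFinset_eq_degree]
    have : G.neighborFinset (Sum.inl a) = (Finset.univ : Finset (Fin m)).map ⟨Sum.inr, Sum.inr_injective⟩ := by
      ext x
      rcases x with x | x <;> simp [hG]
    rw [this]; simp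
  have dr : ∀ b : Fin m, G.degree (Sum.inr b) = 2 := by
    intro a
    rw [← SimpleGraph.card_neighborFinset_eq_degree]
    have : G.neighborFinset (Sum.inr a) = (Finset.univ : Finset (Fin 2)).map ⟨Sum.inl, Sum.inl_injective⟩ := by
      ext x
      rcases x with x | x <;> simp [hG]
    rw [this]; simp
  have hcard : G.edgeFinset.card = 2 * m := by
    have h := G.sum_degrees_eq_twice_card_edges
    rw [Fintype.sum_sum_type] at h
    simp only [dl, dr] at h
    simp at h
    omega
  have hterm : ∀ e ∈ G.edgeFinset,
      Sym2.lift ⟨fun u v => 1 / Real.sqrt ((G.degree u : ℝ) * (G.degree v : ℝ)),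
      fun u v => by simp only [mul_comm]⟩ e = 1 / Real.sqrt (2 * m) := by
    intro e he
    rw [SimpleGraph.mem_edgeFinset] at he
    induction e using Sym2.ind with
    | _ u v =>
      rw [SimpleGraph.mem_edgeSet] at he
      rw [Sym2.lift_mk]
      rcases u with u | u <;> rcases v with v | v
      · simp [hG] at he
      · simp only [dl, dr]
        push_cast
        rw [mul_comm]
      · simp only [dl, dr]
        push_cast
        rfl
      · simp [hG] at he
  unfold randic
  have := Finset.sum_congr rfl hterm
  rw [this, Finset.sum_const, hcard, nsmul_eq_mul]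
  push_cast
  have h2 : (0 : ℝ) < 2 * m := by
    have : (1 : ℝ) ≤ m := by exact_mod_cast hm
    linarith
  have h3 : Real.sqrt (2 * m) * Real.sqrt (2 * m) = 2 * m := Real.mul_self_sqrt h2.le
  have h4 : 0 < Real.sqrt (2 * m) := Real.sqrt_pos.mpr h2
  field_simp
  nlinarith [h3]

/-- For every `n ≥ 11` there is a connected graph on `n` vertices with
`R(G) + α(G) > n - 1 + √(n-1)`. In particular the AutoGraphiX conjecture is false. -/
theorem result : ∀ n : ℕ, 11 ≤ n →
    ∃ (V : Type) (_ : Fintype V) (G : SimpleGraph V),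
      Fintype.card V = n ∧ G.Connected ∧
      (n : ℝ) - 1 + Real.sqrt ((n : ℝ) - 1) < randic G + (G.indepNum : ℝ) := by
  intro n hn
  obtain ⟨m, rfl⟩ : ∃ m, n = m + 2 := ⟨n - 2, by omega⟩
  have hm : 9 ≤ m := by omega
  refine ⟨Fin 2 ⊕ Fin m, inferInstance, completeBipartiteGraph (Fin 2) (Fin m), ?_, ?_, ?_⟩
  · simp; omega
  · haveI : Nonempty (Fin m) := ⟨⟨0, by omega⟩⟩
    constructor
    · intro u v
      have key : ∀ (a : Fin 2) (b : Fin m),
          (completeBipartiteGraph (Fin 2) (Fin m)).Reachable (Sum.inl a) (Sum.inr b) := by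
        intro a b
        exact SimpleGraph.Adj.reachable (by simp)
      have b0 : Fin m := ⟨0, by omega⟩
      rcases u with u | u <;> rcases v with v | v
      · exact (key u b0).trans (key v b0).symm
      · exact key u v
      · exact (key v u).symm
      · exact (key 0 u).symm.trans (key 0 v)
  · have hα : m ≤ (completeBipartiteGraph (Fin 2) (Fin m)).indepNum := by
      have hi : (completeBipartiteGraph (Fin 2) (Fin m)).IsIndepSet
          (((Finset.univ : Finset (Fin m)).map ⟨Sum.inr, Sum.inr_injective⟩ :
            Finset (Fin 2 ⊕ Fin m)) : Set (Fin 2 ⊕ Fin m)) := by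
        intro x hx y hy _
        simp at hx hy
        obtain ⟨x', rfl⟩ := hx
        obtain ⟨y', rfl⟩ := hy
        simp
      have := hi.card_le_indepNum
      simpa using this
    rw [randic_K m (by omega)]
    have hαR : (m : ℝ) ≤ ((completeBipartiteGraph (Fin 2) (Fin m)).indepNum : ℝ) := by
      exact_mod_cast hα
    have hmR : (9 : ℝ) ≤ m := by exact_mod_cast hm
    have h1 : Real.sqrt ((m : ℝ) + 1) + 1 < Real.sqrt (2 * m) := by
      apply Real.lt_sqrt_of_sq_lt
      have hs : Real.sqrt ((m : ℝ) + 1) ^ 2 = m + 1 := Real.sq_sqrt (by linarith)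
      have hlt : Real.sqrt ((m : ℝ) + 1) < ((m : ℝ) - 2) / 2 := by
        rw [Real.sqrt_lt' (by linarith)]
        nlinarith
      nlinarith
    push_cast
    have e1 : (m : ℝ) + 2 - 1 = m + 1 := by ring
    rw [e1]
    linarith

end Pool.Agent.Results.MP_e31007_co.CompleteBip
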